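import Pool.Agent.W206.ID.TopI

set_option autoImplicit false

/-! Functional equations of ideals: the minimal polynomial. -/

namespace Pool.Agent.W206.ID

open MvPolynomial
open Pool.Agent.W574.SM Pool.Agent.W574.HS
open Pool.Agent.H628R4.TP (weylS IsBFunction)

section

variable {σ ι : Type} [Fintype ι] {f : ι → MvPolynomial σ ℂ}

theorem fe_add {b c : Polynomial ℂ} (hb : IsFunctionalEq f b) (hc : IsFunctionalEq f c) :
    IsFunctionalEq f (b + c) := by
  classical
  obtain ⟨S, P, hS, h⟩ := hb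
  obtain ⟨S', P', hS', h'⟩ := hc
  refine ⟨S ∪ S', fun c => (if c ∈ S then P c else 0) + (if c ∈ S' then P' c else 0),
    fun c hc => ?_, fun s => ?_⟩
  · rcases Finset.mem_union.1 hc with h1 | h1
    · exact hS c h1
    · exact hS' c h1
  · rw [Polynomial.eval_add, C_add, add_mul, h s, h' s]
    simp only [applyAt_add, Finset.sum_add_distrib]
    congr 1
    · rw [← Finset.sum_subset (Finset.subset_union_left (s₂ := S'))]
      · refine Finset.sum_congr rfl fun c hc => ?_
        rw [if_pos hc]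
      · intro c _ hc
        rw [if_neg hc, applyAt_zero]
    · rw [← Finset.sum_subset (Finset.subset_union_right (s₁ := S))]
      · refine Finset.sum_congr rfl fun c hc => ?_
        rw [if_pos hc]
      · intro c _ hc
        rw [if_neg hc, applyAt_zero]

theorem fe_mul {b : Polynomial ℂ} (hb : IsFunctionalEq f b) (p : Polynomial ℂ) :
    IsFunctionalEq f (p * b) := by
  classical
  obtain ⟨S, P, hS, h⟩ := hb
  refine ⟨S, fun c => ∑ β ∈ (P c).support,
    tens (Polynomial.aeval (∑ j, X j : MvPolynomial ι ℂ) p * monomial β 1) (P c β), hS,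
    fun s => ?_⟩
  have h1 : ∀ (c : ι → ℤ) (g : MvPolynomial σ ℂ), applyAt (∑ β ∈ (P c).support,
      tens (Polynomial.aeval (∑ j, X j : MvPolynomial ι ℂ) p * monomial β 1) (P c β)) s g =
      p.eval ((∑ j, s j : ℕ) : ℂ) • applyAt (P c) s g := by
    intro c g
    rw [applyAt_sum, applyAt, Finsupp.sum, Finset.smul_sum]
    refine Finset.sum_congr rfl fun β _ => ?_
    rw [applyAt_tens, map_mul, eval_monomial, one_mul, mul_smul,
      Finsupp.prod_fintype _ _ (fun _ => pow_zero _)]
    congr 1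
    rw [← aeval_eq_eval, ← Polynomial.aeval_algHom_apply, aeval_eq_eval]
    simp only [map_sum, eval_X]
    push_cast
    rw [Polynomial.coe_aeval_eq_eval]
  simp only [h1]
  rw [← Finset.smul_sum, ← h s, Polynomial.eval_mul, C_mul, mul_assoc, C_mul']

theorem fe_sub {b c : Polynomial ℂ} (hb : IsFunctionalEq f b) (hc : IsFunctionalEq f c) :
    IsFunctionalEq f (b - c) := by
  have h1 := fe_add hb (fe_mul hc (-1))
  rwa [neg_one_mul, ← sub_eq_add_neg] at h1

theorem fe_monic {b : Polynomial ℂ} (hb : IsFunctionalEq f b) (hb0 : b ≠ 0) :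
    ∃ c : Polynomial ℂ, c.Monic ∧ IsFunctionalEq f c ∧ c.natDegree = b.natDegree := by
  refine ⟨Polynomial.C (b.leadingCoeff)⁻¹ * b, ?_, fe_mul hb _, ?_⟩
  · rw [Polynomial.Monic, Polynomial.leadingCoeff_mul, Polynomial.leadingCoeff_C,
      inv_mul_cancel₀ (Polynomial.leadingCoeff_ne_zero.2 hb0)]
  · rw [Polynomial.natDegree_C_mul (inv_ne_zero (Polynomial.leadingCoeff_ne_zero.2 hb0))]

theorem isBernsteinSato_dvd {b b' : Polynomial ℂ} (h : IsBernsteinSato f b)
    (h' : IsFunctionalEq f b') : b ∣ b' := by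
  obtain ⟨hm, hb, hmin⟩ := h
  rw [← Polynomial.modByMonic_eq_zero_iff_dvd hm]
  by_contra hne
  have h1 : IsFunctionalEq f (b' %ₘ b) := by
    rw [Polynomial.modByMonic_eq_sub_mul_div, mul_comm]
    exact fe_sub h' (fe_mul hb _)
  obtain ⟨c, hc, hcb, hcd⟩ := fe_monic h1 hne
  have h3 := hmin c hc hcb
  have h4 : (b' %ₘ b).natDegree < b.natDegree := by
    apply Polynomial.natDegree_modByMonic_lt _ hm
    rintro rfl
    apply hne
    exact Polynomial.modByMonic_one _
  omega

theorem exists_isBernsteinSato {b : Polynomial ℂ} (h : IsFunctionalEq f b) (hb : b ≠ 0) :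
    ∃ b', IsBernsteinSato f b' := by
  classical
  obtain ⟨b0, hb0, hb0', _⟩ := fe_monic h hb
  have hex : ∃ n, ∃ b' : Polynomial ℂ, b'.Monic ∧ IsFunctionalEq f b' ∧ b'.natDegree = n :=
    ⟨_, b0, hb0, hb0', rfl⟩
  obtain ⟨b', h1, h2, h3⟩ := Nat.find_spec hex
  refine ⟨b', h1, h2, fun c hc hc' => ?_⟩
  rw [h3]
  exact Nat.find_min' hex ⟨c, hc, hc', rfl⟩

end

/-- A principal ideal. -/
theorem fe_single {σ : Type} {g : MvPolynomial σ ℂ} {b : Polynomial ℂ} (h : IsBFunction g b) :
    IsFunctionalEq (fun _ : Fin 1 => g) b := by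
  classical
  obtain ⟨P, hP⟩ := h
  refine ⟨{fun _ => 1}, fun _ => ∑ m ∈ P.support,
    Finsupp.single (Finsupp.single 0 m) (⟨(P m).1, (P m).2⟩ : weyl σ), fun c hc => ?_,
    fun s => ?_⟩
  · rw [Finset.mem_singleton] at hc
    subst hc
    simp
  · have h1 := hP (s 0)
    rw [Finset.sum_singleton, applyAt_sum]
    simp only [applyAt_single, Fin.sum_univ_one, Fin.prod_univ_one, Finsupp.single_eq_same]
    rw [h1, Finsupp.sum]
    refine Finset.sum_congr rfl fun m _ => ?_
    have h2 : (((s 0 : ℕ) : ℤ) + 1).toNat = s 0 + 1 := by omega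
    rw [h2, if_neg (by norm_num), Nat.cast_one, C_1, one_mul]

/-- The functional equation of `∑ t_j f_j` from the one of the ideal. -/
theorem bs1_lin {n r : ℕ} {f : Fin r → MvPolynomial (Fin n) ℂ} {b : Polynomial ℂ}
    (h : IsFunctionalEq f b) : Pool.Agent.W206.CU.BS1 (Pool.Agent.W206.MO.lin f) b := by
  have h1 := Pool.Agent.W206.CU.bs1_iso (renameEquiv ℂ (Equiv.sumComm (Fin r) (Fin n)))
    (bs1_univ f b h)
  have h2 : renameEquiv ℂ (Equiv.sumComm (Fin r) (Fin n)) (univ f) =
      Pool.Agent.W206.MO.lin f := by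
    rw [renameEquiv_apply, univ, Pool.Agent.W206.MO.lin, map_sum]
    refine Finset.sum_congr rfl fun j _ => ?_
    rw [map_mul, rename_X, rename_rename]
    rfl
  rwa [h2] at h1

/-- The functional equation of the ideal from the one of `∑ t_j f_j`. -/
theorem fe_of_lin {n r : ℕ} {f : Fin r → MvPolynomial (Fin n) ℂ} {b : Polynomial ℂ}
    (h : Pool.Agent.W206.CU.BS1 (Pool.Agent.W206.MO.lin f) b) :
    IsFunctionalEq f ((Polynomial.X + 1) * b) := by
  have h1 := Pool.Agent.W206.CU.bs1_iso (renameEquiv ℂ (Equiv.sumComm (Fin n) (Fin r))) h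
  have h2 : renameEquiv ℂ (Equiv.sumComm (Fin n) (Fin r)) (Pool.Agent.W206.MO.lin f) =
      univ f := by
    rw [renameEquiv_apply, univ, Pool.Agent.W206.MO.lin, map_sum]
    refine Finset.sum_congr rfl fun j _ => ?_
    rw [map_mul, rename_X, rename_rename]
    rfl
  rw [h2] at h1
  exact functionalEq_of_univ f _ (Pool.Agent.W206.CU.isBFunction_of_bs1 h1)

end Pool.Agent.W206.ID
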