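import Pool.Agent.W574.HS.Conv
import Pool.Agent.W206.MO.Trans

set_option autoImplicit false

/-! The functional equation of an ideal `(f_j)` gives one of `∑ y_j f_j`. -/

namespace Pool.Agent.W206.ID

open MvPolynomial
open Pool.Agent.W574.SM Pool.Agent.W574.HS
open Pool.Agent.H628R4.TP (weylS IsBFunction IsBernsteinSatoOf)
open Pool.Agent.W206.CU

variable {σ ι : Type} [Fintype ι] [DecidableEq ι]

theorem weylS_X {τ : Type} (i : τ) :
    LinearMap.mulLeft ℂ (X i : MvPolynomial τ ℂ) ∈ weylS τ :=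
  Algebra.subset_adjoin (Or.inl ⟨i, rfl⟩)

/-- The operators on `x` act on the coefficients of the monomials in `y`. -/
theorem ext_weyl [DecidableEq σ] (Q : weyl σ) : ∃ Q' ∈ weylS (ι ⊕ σ),
    ∀ (G : MvPolynomial (ι ⊕ σ) ℂ) (α : ι →₀ ℕ),
      hat (Q' G) α = (Q : Module.End ℂ (MvPolynomial σ ℂ)) (hat G α) := by
  obtain ⟨Q, hQ⟩ := Q
  change ∃ Q' ∈ weylS (ι ⊕ σ), ∀ (G : MvPolynomial (ι ⊕ σ) ℂ) (α : ι →₀ ℕ),
      hat (Q' G) α = Q (hat G α)
  induction hQ using Algebra.adjoin_induction with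
  | mem x hx =>
    rcases hx with ⟨i, rfl⟩ | ⟨i, rfl⟩
    · exact ⟨_, weylS_X (Sum.inr i), fun G α => hat_Xr i G α⟩
    · exact ⟨_, weylS_pderiv (Sum.inr i), fun G α => hat_dr i G α⟩
  | algebraMap r =>
    refine ⟨algebraMap ℂ _ r, (weylS _).algebraMap_mem r, fun G α => ?_⟩
    rw [Module.algebraMap_end_apply, Module.algebraMap_end_apply, hat_smul]
  | add x y hx hy ihx ihy =>
    obtain ⟨x', hx', h1⟩ := ihx
    obtain ⟨y', hy', h2⟩ := ihy
    refine ⟨x' + y', (weylS _).add_mem hx' hy', fun G α => ?_⟩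
    rw [LinearMap.add_apply, hat_add, h1, h2, LinearMap.add_apply]
  | mul x y hx hy ihx ihy =>
    obtain ⟨x', hx', h1⟩ := ihx
    obtain ⟨y', hy', h2⟩ := ihy
    refine ⟨x' * y', (weylS _).mul_mem hx' hy', fun G α => ?_⟩
    rw [Module.End.mul_apply, h1, h2, Module.End.mul_apply]

/-- The operators `p(θ)`, `θ_j = y_j ∂_j`. -/
theorem ext_theta (p : MvPolynomial ι ℂ) : ∃ Q ∈ weylS (ι ⊕ σ),
    ∀ (G : MvPolynomial (ι ⊕ σ) ℂ) (α : ι →₀ ℕ),
      hat (Q G) α = evN α p • hat G α := by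
  induction p using MvPolynomial.induction_on with
  | C a =>
    refine ⟨algebraMap ℂ _ a, (weylS _).algebraMap_mem a, fun G α => ?_⟩
    rw [Module.algebraMap_end_apply, hat_smul, evN, eval_C]
  | add p q hp hq =>
    obtain ⟨x', hx', h1⟩ := hp
    obtain ⟨y', hy', h2⟩ := hq
    refine ⟨x' + y', (weylS _).add_mem hx' hy', fun G α => ?_⟩
    rw [LinearMap.add_apply, hat_add, h1, h2, ← add_smul, evN, evN, evN, map_add]
  | mul_X p i hp =>
    obtain ⟨x', hx', h1⟩ := hp
    refine ⟨x' * (LinearMap.mulLeft ℂ (X (Sum.inl i) : MvPolynomial (ι ⊕ σ) ℂ) *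
      ((pderiv (Sum.inl i) : Derivation ℂ (MvPolynomial (ι ⊕ σ) ℂ) (MvPolynomial (ι ⊕ σ) ℂ)) :
        MvPolynomial (ι ⊕ σ) ℂ →ₗ[ℂ] MvPolynomial (ι ⊕ σ) ℂ)),
      (weylS _).mul_mem hx' ((weylS _).mul_mem (weylS_X _) (weylS_pderiv _)), fun G α => ?_⟩
    rw [Module.End.mul_apply, h1, Module.End.mul_apply, LinearMap.mulLeft_apply, hat_Xl,
      Derivation.coeFn_coe, hat_dl, smul_smul]
    rw [evN, evN, map_mul, eval_X]
    by_cases h : α i = 0
    · rw [h]
      simp
    · rw [sub_add_single α i h]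

/-- The change of the `j`-th index. -/
noncomputable def sh1 (c : ι → ℤ) (j : ι) (α : ι →₀ ℕ) : ι →₀ ℕ :=
  Finsupp.equivFunOnFinite.symm (Function.update α j ((α j : ℤ) + c j).toNat)

theorem sh1_self (c : ι → ℤ) (j : ι) (α : ι →₀ ℕ) :
    sh1 c j α j = ((α j : ℤ) + c j).toNat := by
  simp [sh1]

theorem sh1_ne (c : ι → ℤ) (j : ι) (α : ι →₀ ℕ) (i : ι) (hi : i ≠ j) : sh1 c j α i = α i := by
  simp [sh1, hi]

theorem hat_Xl_pow (j : ι) (k : ℕ) (G : MvPolynomial (ι ⊕ σ) ℂ) (α : ι →₀ ℕ) :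
    hat (X (Sum.inl j) ^ k * G) α =
      ((α j).descFactorial k : ℂ) • hat G (α - Finsupp.single j k) := by
  induction k generalizing α with
  | zero => simp
  | succ k ih =>
    rw [pow_succ', mul_assoc, hat_Xl, ih, smul_smul]
    have h1 : (α - Finsupp.single j 1 : ι →₀ ℕ) j = α j - 1 := by
      rw [Finsupp.tsub_apply, Finsupp.single_eq_same]
    have h2 : α - Finsupp.single j 1 - Finsupp.single j k = α - Finsupp.single j (k + 1) := by
      ext i
      simp only [Finsupp.tsub_apply, Finsupp.single_apply]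
      split_ifs <;> omega
    rw [h1, h2]
    congr 1
    rcases Nat.eq_zero_or_pos (α j) with h | h
    · rw [h]
      simp
    · obtain ⟨a, ha⟩ : ∃ a, α j = a + 1 := ⟨α j - 1, by omega⟩
      rw [ha, Nat.succ_descFactorial_succ]
      push_cast
      ring

theorem hat_dl_pow (j : ι) (k : ℕ) (G : MvPolynomial (ι ⊕ σ) ℂ) (α : ι →₀ ℕ) :
    hat (((((pderiv (Sum.inl j) : Derivation ℂ (MvPolynomial (ι ⊕ σ) ℂ)
      (MvPolynomial (ι ⊕ σ) ℂ)) : MvPolynomial (ι ⊕ σ) ℂ →ₗ[ℂ] MvPolynomial (ι ⊕ σ) ℂ) ^ k :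
        Module.End ℂ (MvPolynomial (ι ⊕ σ) ℂ)) G)) α = hat G (α + Finsupp.single j k) := by
  induction k generalizing α with
  | zero => simp
  | succ k ih =>
    rw [pow_succ', Module.End.mul_apply, Derivation.coeFn_coe, hat_dl, ih, add_assoc,
      ← Finsupp.single_add, add_comm 1 k]

/-- The operator `∂_j ^ c` or `y_j ^ (-c) / (-c)!`. -/
theorem ext_sh1 (c : ι → ℤ) (j : ι) : ∃ Q ∈ weylS (ι ⊕ σ),
    ∀ (G : MvPolynomial (ι ⊕ σ) ℂ) (α : ι →₀ ℕ),
      hat (Q G) α = ((if c j < 0 then (α j).choose (-c j).toNat else 1 : ℕ) : ℂ) •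
        hat G (sh1 c j α) := by
  by_cases hc : c j < 0
  · refine ⟨(((-c j).toNat.factorial : ℂ)⁻¹) •
      LinearMap.mulLeft ℂ (X (Sum.inl j) : MvPolynomial (ι ⊕ σ) ℂ) ^ (-c j).toNat,
      (weylS _).smul_mem ((weylS _).pow_mem (weylS_X _) _) _, fun G α => ?_⟩
    have h1 : (LinearMap.mulLeft ℂ (X (Sum.inl j) : MvPolynomial (ι ⊕ σ) ℂ) ^ (-c j).toNat) G =
        X (Sum.inl j) ^ (-c j).toNat * G := by
      rw [LinearMap.pow_mulLeft, LinearMap.mulLeft_apply]
    have h2 : α - Finsupp.single j (-c j).toNat = sh1 c j α := by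
      ext i
      by_cases hi : i = j
      · subst hi
        rw [sh1_self, Finsupp.tsub_apply, Finsupp.single_eq_same]
        omega
      · rw [sh1_ne _ _ _ _ hi, Finsupp.tsub_apply, Finsupp.single_eq_of_ne hi, tsub_zero]
    rw [LinearMap.smul_apply, h1, hat_smul, hat_Xl_pow, smul_smul, h2, if_pos hc,
      Nat.descFactorial_eq_factorial_mul_choose]
    push_cast
    rw [inv_mul_cancel_left₀]
    exact_mod_cast Nat.factorial_ne_zero _
  · refine ⟨_, (weylS _).pow_mem (weylS_pderiv (Sum.inl j)) (c j).toNat, fun G α => ?_⟩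
    have h2 : α + Finsupp.single j (c j).toNat = sh1 c j α := by
      ext i
      by_cases hi : i = j
      · subst hi
        rw [sh1_self, Finsupp.add_apply, Finsupp.single_eq_same]
        omega
      · rw [sh1_ne _ _ _ _ hi, Finsupp.add_apply, Finsupp.single_eq_of_ne hi, add_zero]
    rw [hat_dl_pow, h2, if_neg hc, Nat.cast_one, one_smul]

/-- The change of the indices in `t`. -/
noncomputable def shT (c : ι → ℤ) (t : Finset ι) (α : ι →₀ ℕ) : ι →₀ ℕ :=
  Finsupp.equivFunOnFinite.symm fun j => if j ∈ t then ((α j : ℤ) + c j).toNat else α j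

theorem shT_apply (c : ι → ℤ) (t : Finset ι) (α : ι →₀ ℕ) (j : ι) :
    shT c t α j = if j ∈ t then ((α j : ℤ) + c j).toNat else α j := rfl

theorem ext_shT (c : ι → ℤ) (t : Finset ι) : ∃ Q ∈ weylS (ι ⊕ σ),
    ∀ (G : MvPolynomial (ι ⊕ σ) ℂ) (α : ι →₀ ℕ),
      hat (Q G) α = ((∏ j ∈ t, (if c j < 0 then (α j).choose (-c j).toNat else 1) : ℕ) : ℂ) •
        hat G (shT c t α) := by
  induction t using Finset.induction_on with
  | empty =>
    refine ⟨1, (weylS _).one_mem, fun G α => ?_⟩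
    have h : shT c ∅ α = α := by
      ext j
      rw [shT_apply, if_neg (by simp)]
    rw [h]
    simp
  | insert j t hj ih =>
    obtain ⟨Q, hQ, h1⟩ := ih
    obtain ⟨Q', hQ', h2⟩ := ext_sh1 (σ := σ) c j
    refine ⟨Q' * Q, (weylS _).mul_mem hQ' hQ, fun G α => ?_⟩
    rw [Module.End.mul_apply, h2, h1, smul_smul, Finset.prod_insert hj]
    have h3 : shT c t (sh1 c j α) = shT c (insert j t) α := by
      ext i
      rw [shT_apply, shT_apply]
      by_cases hi : i = j
      · subst hi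
        rw [if_neg hj, if_pos (Finset.mem_insert_self _ _), sh1_self]
      · rw [sh1_ne _ _ _ _ hi]
        simp [hi]
    have h4 : ∏ i ∈ t, (if c i < 0 then (sh1 c j α i).choose (-c i).toNat else 1) =
        ∏ i ∈ t, (if c i < 0 then (α i).choose (-c i).toNat else 1) := by
      refine Finset.prod_congr rfl fun i hi => ?_
      rw [sh1_ne _ _ _ _ (fun h => hj (by rw [← h]; exact hi))]
    rw [h3, h4]
    push_cast
    rfl

/-- Elements of `D[s]`, with `θ_j` in place of `s_j`. -/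
theorem ext_applyAt [DecidableEq σ] (P : (ι →₀ ℕ) →₀ weyl σ) : ∃ Q ∈ weylS (ι ⊕ σ),
    ∀ (G : MvPolynomial (ι ⊕ σ) ℂ) (α : ι →₀ ℕ),
      hat (Q G) α = applyAt P α (hat G α) := by
  choose A hA1 hA2 using fun β : ι →₀ ℕ => ext_theta (σ := σ) (ι := ι) (monomial β 1)
  choose B hB1 hB2 using fun R : weyl σ => ext_weyl (ι := ι) R
  refine ⟨∑ β ∈ P.support, A β * B (P β), (weylS _).sum_mem fun β _ =>
    (weylS _).mul_mem (hA1 β) (hB1 _), fun G α => ?_⟩
  rw [LinearMap.sum_apply, hat_sum, applyAt, Finsupp.sum]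
  refine Finset.sum_congr rfl fun β _ => ?_
  rw [Module.End.mul_apply, hA2, hB2, evN, eval_monomial, one_mul]
  congr 1
  rw [Finsupp.prod_fintype _ _ (fun _ => pow_zero _)]

omit [DecidableEq ι] in
theorem hat_injective {G H : MvPolynomial (ι ⊕ σ) ℂ} (h : ∀ α, hat G α = hat H α) : G = H := by
  apply (sumAlgEquiv ℂ ι σ).injective
  ext1 α
  have h1 := h α
  rw [hat, hat] at h1
  refine smul_right_injective (MvPolynomial σ ℂ) ?_ h1
  have : mfact α ≠ 0 := by
    unfold mfact
    exact Finset.prod_ne_zero_iff.2 fun j _ => Nat.factorial_ne_zero _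
  exact_mod_cast this

/-- **The functional equation of an ideal `(f_j)` gives one of `∑ y_j f_j`.** -/
theorem bs1_univ [DecidableEq σ] (f : ι → MvPolynomial σ ℂ) (b : Polynomial ℂ)
    (hb : IsFunctionalEq f b) : BS1 (univ f) b := by
  obtain ⟨S, P, hS, h⟩ := hb
  choose A hA1 hA2 using fun c : ι → ℤ => ext_applyAt (P c)
  choose B hB1 hB2 using fun c : ι → ℤ => ext_shT (σ := σ) c Finset.univ
  refine ⟨fun _ => ∑ c ∈ S, A c * B c, fam_const ((weylS _).sum_mem fun c _ =>
    (weylS _).mul_mem (hA1 c) (hB1 c)), fun M => ?_⟩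
  apply hat_injective
  intro α
  rw [LinearMap.sum_apply, hat_sum, hat_C_mul, hat_univ_pow]
  have hterm : ∀ c ∈ S, hat ((A c * B c) (univ f ^ M)) α =
      if ∑ j, α j + 1 = M then (M.factorial : ℂ) • applyAt (P c) α
        (C ((∏ j, (if c j < 0 then (α j).choose (-c j).toNat else 1) : ℕ) : ℂ) *
          ∏ j, f j ^ ((α j : ℤ) + c j).toNat) else 0 := by
    intro c hc
    rw [Module.End.mul_apply, hA2, hB2]
    have hsm : ∀ (a : ℂ) (g : MvPolynomial σ ℂ), applyAt (P c) α (a • g) =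
        a • applyAt (P c) α g := by
      intro a g
      unfold applyAt
      rw [Finsupp.smul_sum]
      refine Finsupp.sum_congr fun β _ => ?_
      rw [map_smul, smul_comm]
    by_cases hz : (∏ j, (if c j < 0 then (α j).choose (-c j).toNat else 1)) = 0
    · rw [hz, Nat.cast_zero, zero_smul, C_0, zero_mul]
      have : applyAt (P c) α (0 : MvPolynomial σ ℂ) = 0 := by
        have := hsm 0 0
        rwa [zero_smul, zero_smul] at this
      rw [this, smul_zero, ite_self]
    · have hpos : ∀ j, 0 ≤ (α j : ℤ) + c j := by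
        intro j
        by_contra hneg
        apply hz
        refine Finset.prod_eq_zero (Finset.mem_univ j) ?_
        rw [if_pos (by omega), Nat.choose_eq_zero_iff]
        omega
      have hsum : ∑ j, shT c Finset.univ α j = ∑ j, α j + 1 := by
        have h1 : ((∑ j, shT c Finset.univ α j : ℕ) : ℤ) = ((∑ j, α j + 1 : ℕ) : ℤ) := by
          push_cast
          rw [← hS c hc, ← Finset.sum_add_distrib]
          refine Finset.sum_congr rfl fun j _ => ?_
          rw [shT_apply, if_pos (Finset.mem_univ j), Int.toNat_of_nonneg (hpos j)]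
        exact_mod_cast h1
      rw [hat_univ_pow, hsum]
      by_cases hM : ∑ j, α j + 1 = M
      · rw [if_pos hM, if_pos hM, smul_comm, hsm, C_mul']
        have h5 : ∏ j, f j ^ shT c Finset.univ α j = ∏ j, f j ^ ((α j : ℤ) + c j).toNat := by
          refine Finset.prod_congr rfl fun j _ => ?_
          rw [shT_apply, if_pos (Finset.mem_univ j)]
        rw [h5]
      · rw [if_neg hM, if_neg hM, smul_zero]
        have := hsm 0 0
        rwa [zero_smul, zero_smul] at this
  rw [Finset.sum_congr rfl hterm]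
  by_cases hM : ∑ j, α j + 1 = M
  · simp only [if_pos hM]
    rw [← Finset.smul_sum, ← h α, if_pos (by omega), C_mul', smul_smul, smul_smul]
    have hM1 : M - 1 = ∑ j, α j := by omega
    rw [hM1]
    congr 1
    rw [← hM, Nat.factorial_succ]
    push_cast
    rw [add_sub_cancel_right]
    ring
  · simp only [if_neg hM]
    rw [Finset.sum_const_zero]
    by_cases hM0 : M = 0
    · rw [hM0]
      simp
    · rw [if_neg (by omega), smul_zero]

end Pool.Agent.W206.ID
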