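import Pool.Agent.W206.ID.Vol
import Pool.Agent.W206.ID.Must
import Pool.Agent.W206.MO.TopMain

set_option autoImplicit false

/-! What is followed along the moves for an ideal. -/

namespace Pool.Agent.W206.ID

open MvPolynomial
open Pool.Agent.W428.MOT Pool.Agent.W375.MT Pool.Agent.W375.MG Pool.Agent.W206.MO
open Pool.Agent.H628R4.TP (weylS IsBFunction IsBernsteinSatoOf)
open Pool.Agent.W206.CU
open Pool.Agent.W206.CU.KP (ren quadSum)

/-- The property which is followed along the moves. -/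
def FollowI {V₀ : Type} [Fintype V₀] (M : Meas ℂ (MK ℂ)) (F₀ : MvPolynomial V₀ ℂ)
    (α₀ : ℕ → MK ℂ) (σ τ : Type) [Fintype σ] [Fintype τ] (m : ℕ) (F : MvPolynomial (σ ⊕ τ) ℂ) :
    Prop :=
  FollowG M F₀ (σ ⊕ τ) m F ∧
  (∀ N : ℕ, alT M Yc (fun j : τ => pderiv (Sum.inr j) F) N = Yc ^ (m * N) * α₀ N) ∧
  ∃ z : σ ⊕ τ → ℂ, ∀ j : τ, eval z (pderiv (Sum.inr j) F) = 0

theorem followI_chain {V₀ : Type} [Fintype V₀] (M : Meas ℂ (MK ℂ)) (hL : M.L * Yc = 1)
    (F₀ : MvPolynomial V₀ ℂ) (α₀ : ℕ → MK ℂ) :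
    RL.LChain (fun σ τ _ _ m F => FollowI M F₀ α₀ σ τ m F) where
  iso σ τ σ' τ' _ _ _ _ e e' m F h := by
    have hinj : Function.Injective (Sum.map e e') :=
      (Equiv.sumCongr e e').injective
    have hp : ∀ j : τ', pderiv (Sum.inr j) (rename (Sum.map e e') F) =
        rename (Sum.map e e') (pderiv (Sum.inr (e'.symm j)) F) := by
      intro j
      have h1 := pderiv_rename hinj (Sum.inr (e'.symm j)) F
      rw [← h1]
      simp
    refine ⟨?_, fun N => ?_, ?_⟩
    · exact (followG_chain M hL F₀).iso _ _ (renameEquiv ℂ (Equiv.sumCongr e e')) _ _ h.1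
    · rw [← h.2.1 N]
      have h1 : (fun j : τ' => pderiv (Sum.inr j) (rename (Sum.map e e') F)) =
          fun j => renameEquiv ℂ (Equiv.sumCongr e e') (pderiv (Sum.inr (e'.symm j)) F) := by
        funext j
        rw [hp]
        rfl
      rw [h1, alT_iso]
      classical
      apply alT_congr
      · intro i
        refine ⟨fun j => if j = e' i then 1 else 0, ?_⟩
        simp
      · intro i
        refine ⟨fun j => if j = e'.symm i then 1 else 0, ?_⟩
        simp
    · obtain ⟨z, hz⟩ := h.2.2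
      refine ⟨z ∘ Sum.map e.symm e'.symm, fun j => ?_⟩
      rw [hp, eval_rename]
      have h1 : (z ∘ Sum.map e.symm e'.symm) ∘ Sum.map e e' = z := by
        funext i
        rcases i with i | i <;> simp
      rw [h1]
      exact hz _
  step σ τ _ _ m F a e h := by
    classical
    set G : MvPolynomial ((σ ⊕ τ) ⊕ Fin 2) ℂ := rename Sum.inl F +
      (X (Sum.inr 0) - rename Sum.inl (rename Sum.inl a)) *
        (X (Sum.inr 1) + rename Sum.inl e) with hG
    have hF' : rename (ren σ τ) (rename Sum.inl F) +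
      (X (Sum.inl none) - rename (ren σ τ) (rename Sum.inl (rename Sum.inl a))) *
      (X (Sum.inr none) + rename (ren σ τ) (rename Sum.inl e)) =
        renameEquiv ℂ (ren σ τ) G := by
      rw [hG, renameEquiv_apply]
      simp only [map_add, map_mul, map_sub, rename_X]
      rfl
    rw [hF']
    have hinj : Function.Injective (ren σ τ) := (ren σ τ).injective
    have hp0 : pderiv (Sum.inr none) (renameEquiv ℂ (ren σ τ) G) =
        renameEquiv ℂ (ren σ τ) (X (Sum.inr 0) - rename Sum.inl (rename Sum.inl a)) := by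
      rw [renameEquiv_apply, renameEquiv_apply]
      have h1 := pderiv_rename hinj (Sum.inr 1) G
      have h2 : ren σ τ (Sum.inr 1) = Sum.inr none := rfl
      rw [h2] at h1
      rw [h1, hG]
      congr 1
      rw [map_add, Derivation.leibniz, map_add, map_sub, pderiv_X_self,
        pderiv_X_of_ne (by simp : (Sum.inr 0 : (σ ⊕ τ) ⊕ Fin 2) ≠ Sum.inr 1),
        pderiv_rename_of_not Sum.inl (Sum.inr 1) (by simp),
        pderiv_rename_of_not Sum.inl (Sum.inr 1) (by simp),
        pderiv_rename_of_not Sum.inl (Sum.inr 1) (by simp)]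
      simp
    have hp1 : ∀ j : τ, pderiv (Sum.inr (some j)) (renameEquiv ℂ (ren σ τ) G) =
        renameEquiv ℂ (ren σ τ) (rename Sum.inl (pderiv (Sum.inr j) F) +
          (X (Sum.inr 0) - rename Sum.inl (rename Sum.inl a)) *
            rename Sum.inl (pderiv (Sum.inr j) e)) := by
      intro j
      rw [renameEquiv_apply, renameEquiv_apply]
      have h1 := pderiv_rename hinj (Sum.inl (Sum.inr j)) G
      have h2 : ren σ τ (Sum.inl (Sum.inr j)) = Sum.inr (some j) := rfl
      rw [h2] at h1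
      rw [h1, hG]
      congr 1
      have h3 : (pderiv (Sum.inl (Sum.inr j) : (σ ⊕ τ) ⊕ Fin 2)) (rename Sum.inl (rename Sum.inl a)
          : MvPolynomial ((σ ⊕ τ) ⊕ Fin 2) ℂ) = 0 := by
        rw [rename_rename]
        exact pderiv_rename_of_not _ _ (by simp) a
      rw [map_add, Derivation.leibniz, map_add, map_sub,
        pderiv_rename (Sum.inl_injective), pderiv_rename (Sum.inl_injective),
        pderiv_X_of_ne (by simp : (Sum.inr 1 : (σ ⊕ τ) ⊕ Fin 2) ≠ Sum.inl (Sum.inr j)),
        pderiv_X_of_ne (by simp : (Sum.inr 0 : (σ ⊕ τ) ⊕ Fin 2) ≠ Sum.inl (Sum.inr j)), h3]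
      simp
    refine ⟨?_, fun N => ?_, ?_⟩
    · have h1 := (followG_chain M hL F₀).iso _ _ (renameEquiv ℂ (ren σ τ)) _ _
        ((followG_chain M hL F₀).shear h.1 (rename Sum.inl a) e)
      exact h1
    · have h1 : (fun o : Option τ => pderiv (Sum.inr o) (renameEquiv ℂ (ren σ τ) G)) =
          fun o => renameEquiv ℂ (ren σ τ) (o.elim
            (X (Sum.inr 0) - rename Sum.inl (rename Sum.inl a))
            fun j => rename Sum.inl (pderiv (Sum.inr j) F) +
              (X (Sum.inr 0) - rename Sum.inl (rename Sum.inl a)) *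
                rename Sum.inl (pderiv (Sum.inr j) e)) := by
        funext o
        rcases o with _ | j
        · exact hp0
        · exact hp1 j
      rw [h1, alT_iso, alT_move M Yc hL, h.2.1 N, ← mul_assoc, ← pow_add]
      congr 2
      ring
    · obtain ⟨z, hz⟩ := h.2.2
      let w : (σ ⊕ τ) ⊕ Fin 2 → ℂ := Sum.elim z (fun _ => eval z (rename Sum.inl a))
      refine ⟨w ∘ (ren σ τ).symm, fun o => ?_⟩
      have h4 : (w ∘ (ren σ τ).symm) ∘ (ren σ τ) = w := by
        funext i
        simp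
      have h5 : w ∘ Sum.inl = z := rfl
      rcases o with _ | j
      · rw [hp0, renameEquiv_apply, eval_rename, h4, map_sub, eval_X, eval_rename, h5]
        exact sub_self _
      · rw [hp1, renameEquiv_apply, eval_rename, h4, map_add, map_mul, map_sub, eval_X,
          eval_rename, eval_rename, h5, hz]
        simp [w]

theorem pderiv_quadSum {n k : ℕ} (q : Fin k → MvPolynomial (Fin n) ℂ) (j : Fin k) :
    pderiv (Sum.inr j) (quadSum q) = rename Sum.inl (q j) := by
  rw [quadSum, map_sum, Finset.sum_eq_single j]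
  · rw [Derivation.leibniz, pderiv_X_self, smul_eq_mul, smul_eq_mul, mul_one,
      pderiv_rename_of_not Sum.inl (Sum.inr j) (by simp), mul_zero, zero_add]
  · intro i _ hi
    rw [Derivation.leibniz, pderiv_rename_of_not Sum.inl (Sum.inr j) (by simp),
      pderiv_X_of_ne (by simpa using hi)]
    simp
  · simp

theorem alT_quadSum (M : Meas ℂ (MK ℂ)) (hL : M.L * Yc = 1) {n k : ℕ}
    (q : Fin k → MvPolynomial (Fin n) ℂ) (N : ℕ) :
    alT M Yc (fun j => pderiv (Sum.inr j) (quadSum q)) N = alI M Yc q N := by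
  have h1 : vanT (fun j => pderiv (Sum.inr j) (quadSum q)) N N = Ai q N := by
    ext z
    simp only [vanT, Ai, Set.mem_ofPred_eq]
    refine forall_congr' fun j => forall_congr' fun l => forall_congr' fun hl => ?_
    rw [pderiv_quadSum, aeval_rename]
    rfl
  rw [alT, clT, h1, chi_Ai, alI, clI]
  have hc : Fintype.card (Fin n ⊕ Fin k) = n + k := by simp
  rw [hc, Fintype.card_fin, show (n + k) * N = k * N + n * N by ring, pow_add]
  have h2 : M.L ^ (k * N) * Yc ^ (k * N) = 1 := by rw [← mul_pow, hL, one_pow]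
  linear_combination (M.χ (Fin n × Fin N) (vanI q N N) * Yc ^ (n * N)) * h2

/-- The start. -/
theorem followI_start (M : Meas ℂ (MK ℂ)) (hL : M.L * Yc = 1) {n r : ℕ}
    (f : Fin r → MvPolynomial (Fin n) ℂ)
    {j : Fin r} (hj : f j ≠ 0) (z : Fin n → ℂ) (hz : ∀ i, eval z (f i) = 0) :
    FollowI M (quadSum f) (alI M Yc f) (Fin n) (Fin r) 0 (quadSum f) := by
  refine ⟨followG_start M _ fun c => ?_, fun N => ?_, Sum.elim z (fun _ => 0), fun i => ?_⟩
  · rw [quadSum_eq_lin]
    exact lin_ne_C hj c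
  · rw [alT_quadSum M hL, zero_mul, pow_zero, one_mul]
  · rw [pderiv_quadSum, eval_rename]
    exact hz i

/-- The ideal of quadrics attached to an ideal. -/
theorem exists_quadrics (M : Meas ℂ (MK ℂ)) (hL : M.L * Yc = 1) {n r : ℕ}
    (f : Fin r → MvPolynomial (Fin n) ℂ)
    {j : Fin r} (hj : f j ≠ 0) (z : Fin n → ℂ) (hz : ∀ i, eval z (f i) = 0) (N : ℕ) :
    ∃ (n' k m : ℕ) (q : Fin k → MvPolynomial (Fin n') ℂ), N ≤ m ∧
      (∀ j, (q j).totalDegree ≤ 2) ∧ FollowG M (lin f) (Fin n' ⊕ Fin k) m (lin q) ∧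
      (∀ N, alI M Yc q N = Yc ^ (m * N) * alI M Yc f N) ∧
      ∃ z : Fin n' → ℂ, ∀ j, eval z (q j) = 0 := by
  obtain ⟨n', k, m, q, hm, hq, h1, h2, z', hz'⟩ :=
    RL.main (followI_chain M hL (quadSum f) (alI M Yc f)) f (followI_start M hL f hj z hz) N
  refine ⟨n', k, m, q, hm, hq, h1, fun N => ?_, z' ∘ Sum.inl, fun j => ?_⟩
  · rw [← alT_quadSum M hL, h2]
  · have h3 := hz' j
    rwa [pderiv_quadSum, eval_rename] at h3

end Pool.Agent.W206.ID
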