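import Pool.Agent.W206.ID.Fe

set_option autoImplicit false

/-! The reduction for topological zeta functions of ideals. -/

namespace Pool.Agent.W206.ID

open Pool.Agent.W428.MOT Pool.Agent.W375.MT Pool.Agent.W375.MG Pool.Agent.W206.MO
open Pool.Agent.W574.SM (IsFunctionalEq IsBernsteinSato)
open Pool.Agent.H628R4.TP (IsBFunction)
open Pool.Agent.W206.CU

theorem exists_zero {n r : ℕ} (f : Fin r → MvPolynomial (Fin n) ℂ)
    (h : Ideal.span (Set.range f) ≠ ⊤) : ∃ z : Fin n → ℂ, ∀ i, MvPolynomial.eval z (f i) = 0 := by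
  obtain ⟨J, hJ, hle⟩ := Ideal.exists_le_maximal _ h
  obtain ⟨z, hz⟩ := MvPolynomial.isMaximal_iff_eq_vanishingIdeal_singleton.1 hJ
  refine ⟨z, fun i => ?_⟩
  have h1 : f i ∈ J := hle (Ideal.subset_span ⟨i, rfl⟩)
  rw [hz, MvPolynomial.mem_vanishingIdeal_singleton_iff] at h1
  rwa [MvPolynomial.aeval_eq_eval] at h1

theorem span_ne_top {n r : ℕ} (f : Fin r → MvPolynomial (Fin n) ℂ) (z : Fin n → ℂ)
    (hz : ∀ i, MvPolynomial.eval z (f i) = 0) : Ideal.span (Set.range f) ≠ ⊤ := by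
  intro h
  have h1 : Ideal.span (Set.range f) ≤ RingHom.ker (MvPolynomial.eval z) := by
    rw [Ideal.span_le]
    rintro _ ⟨i, rfl⟩
    exact hz i
  rw [h, top_le_iff] at h1
  exact RingHom.ker_ne_top _ h1

theorem exists_ne_zero {n r : ℕ} (f : Fin r → MvPolynomial (Fin n) ℂ)
    (h : Ideal.span (Set.range f) ≠ ⊥) : ∃ j, f j ≠ 0 := by
  by_contra hcon
  push Not at hcon
  apply h
  rw [Ideal.span_eq_bot]
  rintro _ ⟨i, rfl⟩
  exact hcon i

theorem span_ne_bot {n r : ℕ} (f : Fin r → MvPolynomial (Fin n) ℂ) {j : Fin r}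
    (hj : f j ≠ 0) : Ideal.span (Set.range f) ≠ ⊥ := by
  intro h
  rw [Ideal.span_eq_bot] at h
  exact hj (h _ ⟨j, rfl⟩)

/-- The data attached to `f`: for a pole `s₀` of the topological zeta function of the ideal `(f)`,
an ideal `(q)` of quadrics and a natural number `m` such that `s₀ - m` is a pole of the topological
zeta functions of `(q)` and of `(∑ t_j q_j)`, and the two Bernstein-Sato polynomials divide
`(s + 1) b_I(s + m)`. -/
theorem exists_data {χ : MK ℂ →+* ℤ} (hχ : χ ((Lu ℂ : (MK ℂ)ˣ) : MK ℂ) = 1) {n r : ℕ}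
    (f : Fin r → MvPolynomial (Fin n) ℂ) (hf : Ideal.span (Set.range f) ≠ ⊥)
    (hf' : Ideal.span (Set.range f) ≠ ⊤) {R : RatFunc ℂ}
    (hR : IsTop χ (zetaOrdI f) R) {s₀ : ℂ} (hs : R.denom.eval s₀ = 0) {b : Polynomial ℂ}
    (hb : IsBernsteinSato f b) :
    ∃ (n' k m : ℕ) (q : Fin k → MvPolynomial (Fin n') ℂ),
      (∀ j, (q j).totalDegree ≤ 2) ∧ Ideal.span (Set.range q) ≠ ⊥ ∧
      Ideal.span (Set.range q) ≠ ⊤ ∧ (∀ c : ℂ, cubic q ≠ MvPolynomial.C c) ∧
      s₀ ≠ (m : ℂ) - 1 ∧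
      (∃ (R' : RatFunc ℂ) (b' : Polynomial ℂ), IsTop χ (zetaOrdI q) R' ∧
        R'.denom.eval (s₀ - m) = 0 ∧ IsBernsteinSato q b' ∧
        b' ∣ (Polynomial.X + 1) * b.comp (Polynomial.X + Polynomial.C (m : ℂ))) ∧
      (∃ (R' : RatFunc ℂ) (b' : Polynomial ℂ), IsTop χ (zetaOrdI fun _ : Fin 1 => cubic q) R' ∧
        R'.denom.eval (s₀ - m) = 0 ∧ IsBernsteinSato (fun _ : Fin 1 => cubic q) b' ∧
        b' ∣ (Polynomial.X + 1) * b.comp (Polynomial.X + Polynomial.C (m : ℂ))) := by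
  obtain ⟨M, hL, hM⟩ := exists_meas ℂ
  change M.L * Yc = 1 at hL
  obtain ⟨N, hN⟩ := exists_nat_gt (s₀.re + 1)
  obtain ⟨j, hj⟩ := exists_ne_zero f hf
  obtain ⟨z, hz⟩ := exists_zero f hf'
  obtain ⟨n', k, m, q, hNm, hq, hfol, hal, z', hz'⟩ := exists_quadrics M hL f hj z hz N
  have hmN : (N : ℝ) ≤ m := by exact_mod_cast hNm
  have hsm : s₀ ≠ m := by
    intro h
    rw [h] at hN
    rw [Complex.natCast_re] at hN
    linarith
  have hsm' : s₀ ≠ (m : ℂ) - 1 := by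
    intro h
    rw [h] at hN
    rw [Complex.sub_re, Complex.natCast_re, Complex.one_re] at hN
    linarith
  rw [zetaOrdI_eq M hL hM] at hR
  have h5 : (Polynomial.X + 1) * b.comp (Polynomial.X + Polynomial.C (m : ℂ)) ≠ 0 :=
    mul_ne_zero (Polynomial.monic_X_add_C (1 : ℂ)).ne_zero (comp_ne_zero hb.1.ne_zero m)
  have hb1 := hfol.1 b (bs1_lin hb.2.1)
  have hfol' := (followG_chain M hL _).iso _ _ (MvPolynomial.renameEquiv ℂ finSumFinEquiv) _ _ hfol
  have hcub : MvPolynomial.renameEquiv ℂ finSumFinEquiv (lin q) = cubic q := rename_quadSum q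
  rw [hcub] at hfol'
  have hb2 := fe_single (isBFunction_of_bs1 (hfol'.1 b (bs1_lin hb.2.1)))
  have hq0 : ∃ j, q j ≠ 0 := by
    by_contra hcon
    push Not at hcon
    apply hfol.2.2 0
    rw [lin, map_zero]
    exact Finset.sum_eq_zero fun i _ => by rw [hcon i, map_zero, mul_zero]
  obtain ⟨j', hj'⟩ := hq0
  refine ⟨n', k, m, q, hq, span_ne_bot q hj', span_ne_top q z' hz', hfol'.2.2, hsm', ?_, ?_⟩
  · obtain ⟨b', hb'⟩ := exists_isBernsteinSato (fe_of_lin hb1) h5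
    refine ⟨topI m R, b', ?_, ?_, hb', isBernsteinSato_dvd hb' (fe_of_lin hb1)⟩
    · rw [zetaOrdI_eq M hL hM]
      exact isTop_ideal hχ M hal hR
    · by_contra hne
      exact (regAt_iff R s₀).1 (regAt_of_topI hsm ((regAt_iff _ _).2 hne)) hs
  · obtain ⟨b', hb'⟩ := exists_isBernsteinSato hb2 h5
    refine ⟨topOf m R, b', ?_, ?_, hb', isBernsteinSato_dvd hb' hb2⟩
    · rw [zetaOrdI_eq M hL hM, zI_single]
      exact isTop_trans hχ M hL hfol' hR
    · by_contra hne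
      exact (regAt_iff R s₀).1 (regAt_of_topOf hsm ((regAt_iff _ _).2 hne)) hs

end Pool.Agent.W206.ID
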