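import Pool.Agent.W206.CU.RedP

set_option autoImplicit false

/-! Reduction of `∑ t_j f_j(x)` to `∑ t_j q_j(x)` with `q_j` quadratic, for properties preserved
by the moves `F ↦ F + (y - a) (t + e)` with `a` a polynomial in `x`. -/

namespace Pool.Agent.W206.ID.RL

open MvPolynomial
open Pool.Agent.W206.CU.KP (lp lp_nil lp_cons lp_append lift rename_lp ren excess excess_cons
  excess_append excess_lift exists_quad exists_lp quadSum)

variable {K : Type} [Field K]

/-- A property of the polynomials in `x`, `t` preserved by the moves. -/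
structure LChain (PP : ∀ (σ τ : Type) [Fintype σ] [Fintype τ], ℕ → MvPolynomial (σ ⊕ τ) K → Prop) :
    Prop where
  iso : ∀ (σ τ σ' τ' : Type) [Fintype σ] [Fintype τ] [Fintype σ'] [Fintype τ'] (e : σ ≃ σ')
    (e' : τ ≃ τ') (m : ℕ) (F : MvPolynomial (σ ⊕ τ) K), PP σ τ m F →
    PP σ' τ' m (rename (Sum.map e e') F)
  step : ∀ (σ τ : Type) [Fintype σ] [Fintype τ] (m : ℕ) (F : MvPolynomial (σ ⊕ τ) K)
    (a : MvPolynomial σ K) (e : MvPolynomial (σ ⊕ τ) K), PP σ τ m F →
    PP (Option σ) (Option τ) (m + 1) (rename (ren σ τ) (rename Sum.inl F) +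
      (X (Sum.inl none) - rename (ren σ τ) (rename Sum.inl (rename Sum.inl a))) *
      (X (Sum.inr none) + rename (ren σ τ) (rename Sum.inl e)))

variable {PP : ∀ (σ τ : Type) [Fintype σ] [Fintype τ], ℕ → MvPolynomial (σ ⊕ τ) K → Prop}

theorem lpStep (hc : LChain PP) {σ τ : Type} [Fintype σ] [Fintype τ] {m : ℕ}
    {L : List (K × τ × List σ)} (h : PP σ τ m (lp L))
    (a : MvPolynomial σ K) (e : MvPolynomial (σ ⊕ τ) K) :
    PP (Option σ) (Option τ) (m + 1) (lp (L.map lift) +
      (X (Sum.inl none) - rename (ren σ τ) (rename Sum.inl (rename Sum.inl a))) *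
      (X (Sum.inr none) + rename (ren σ τ) (rename Sum.inl e))) := by
  have h1 := hc.step σ τ m (lp L) a e h
  rw [rename_lp] at h1
  exact h1

/-- One move lowers the excess. -/
theorem reduce (hc : LChain PP) {σ τ : Type} [Fintype σ] [Fintype τ] {m : ℕ}
    {L : List (K × τ × List σ)} (h : PP σ τ m (lp L))
    (hL : ∃ c ∈ L, 2 < c.2.2.length) :
    ∃ L' : List (K × Option τ × List (Option σ)), excess L' < excess L ∧
      PP (Option σ) (Option τ) (m + 1) (lp L') := by
  obtain ⟨⟨c, t, l⟩, hcL, hl⟩ := hL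
  obtain ⟨s, s', rfl⟩ := List.append_of_mem hcL
  simp only at hl
  match l, hl with
  | i :: j :: k :: l, hl =>
    refine ⟨(1, none, [none]) :: (-1, none, [some i, some j]) ::
      (c, some t, none :: some k :: l.map some) :: (s ++ s').map lift, ?_, ?_⟩
    · simp only [excess_cons, excess_append, List.map_append, excess_lift, List.length_cons,
        List.length_nil, List.length_map]
      omega
    · have h1 := lpStep hc h (X i * X j)
        (C c * X (Sum.inr t) * (X (Sum.inl k) * (l.map fun i => X (Sum.inl i)).prod))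
      convert h1 using 1
      simp only [List.map_append, List.map_cons, lp_append, lp_cons, lift, List.prod_cons,
        List.prod_nil, List.map_nil, List.map_map, map_mul, rename_C, rename_X, map_list_prod,
        Function.comp_def]
      simp only [ren, Equiv.coe_fn_mk, Sum.elim_inl, Sum.map_inl, Sum.map_inr, map_one, map_neg]
      ring

/-- A move which only adds the product `y t`. -/
theorem dummy (hc : LChain PP) {σ τ : Type} [Fintype σ] [Fintype τ] {m : ℕ}
    {L : List (K × τ × List σ)} (h : PP σ τ m (lp L)) :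
    ∃ L' : List (K × Option τ × List (Option σ)),
      PP (Option σ) (Option τ) (m + 1) (lp L') := by
  refine ⟨(1, none, [none]) :: L.map lift, ?_⟩
  have h1 := lpStep hc h 0 0
  convert h1 using 1
  simp only [lp_cons, List.map_cons, List.map_nil, List.prod_cons, List.prod_nil, map_one,
    map_zero]
  ring

theorem dummies (hc : LChain PP) (N : ℕ) {σ τ : Type} [Fintype σ] [Fintype τ] {m : ℕ}
    {L : List (K × τ × List σ)} (h : PP σ τ m (lp L)) :
    ∃ (σ' τ' : Type) (_ : Fintype σ') (_ : Fintype τ') (L' : List (K × τ' × List σ')),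
      PP σ' τ' (m + N) (lp L') := by
  induction N generalizing σ τ m with
  | zero => exact ⟨σ, τ, inferInstance, inferInstance, L, h⟩
  | succ N ih =>
    obtain ⟨L', h'⟩ := dummy hc h
    obtain ⟨σ'', τ'', i1, i2, L'', h''⟩ := ih h'
    refine ⟨σ'', τ'', i1, i2, L'', ?_⟩
    have e : m + (N + 1) = m + 1 + N := by ring
    rw [e]
    exact h''

theorem quadratic (hc : LChain PP) {σ τ : Type} [Fintype σ] [Fintype τ] {m : ℕ}
    {L : List (K × τ × List σ)} (h : PP σ τ m (lp L)) :
    ∃ (σ' τ' : Type) (_ : Fintype σ') (_ : Fintype τ') (L' : List (K × τ' × List σ'))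
      (m' : ℕ), m ≤ m' ∧ (∀ c ∈ L', c.2.2.length ≤ 2) ∧
        PP σ' τ' m' (lp L') := by
  induction hN : excess L using Nat.strong_induction_on generalizing σ τ m with
  | _ N ih =>
    by_cases hL : ∃ c ∈ L, 2 < c.2.2.length
    · obtain ⟨L', hlt, h'⟩ := reduce hc h hL
      obtain ⟨σ'', τ'', i1, i2, L'', m', hm, h2, h3⟩ := ih _ (hN ▸ hlt) h' rfl
      exact ⟨σ'', τ'', i1, i2, L'', m', by omega, h2, h3⟩
    · push Not at hL
      exact ⟨σ, τ, inferInstance, inferInstance, L, m, le_rfl, hL, h⟩

/-- The reduction principle: a property preserved by the moves and satisfied by `∑ t_j f_j(x)`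
holds for some polynomial `∑ t_j q_j(x)` with `q_j` quadratic, after any large enough number of
moves. -/
theorem main (hc : LChain PP) {n r : ℕ} (f : Fin r → MvPolynomial (Fin n) K)
    (h : PP (Fin n) (Fin r) 0 (quadSum f)) (N : ℕ) :
    ∃ (n' k m : ℕ) (q : Fin k → MvPolynomial (Fin n') K), N ≤ m ∧
      (∀ j, (q j).totalDegree ≤ 2) ∧ PP (Fin n') (Fin k) m (quadSum q) := by
  obtain ⟨L, hL⟩ := exists_lp f
  rw [hL] at h
  obtain ⟨σ1, τ1, i1, i2, L1, h1⟩ := dummies hc N h
  obtain ⟨σ', τ', i5, i6, L3, m, hm, hq3, h3⟩ := quadratic hc h1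
  let e := Fintype.equivFin σ'
  let e' := Fintype.equivFin τ'
  obtain ⟨q, hq, hq'⟩ := exists_quad e e' L3 hq3
  refine ⟨_, _, m, q, by omega, hq, ?_⟩
  have h4 := hc.iso _ _ _ _ e e' _ _ h3
  rw [hq'] at h4
  exact h4

end Pool.Agent.W206.ID.RL
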