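import Pool.Agent.W206.ID.Follow

set_option autoImplicit false

/-! The topological zeta function of the ideal of quadrics. -/

namespace Pool.Agent.W206.ID

open Pool.Agent.W428.MOT Pool.Agent.W375.MT Pool.Agent.W375.MG Pool.Agent.W206.MO

/-- The jets `z` with `min_i ord f_i(z) = l`. -/
def JetOrdI {K : Type} [Field K] {n r : ℕ} (f : Fin r → MvPolynomial (Fin n) K) (l : ℕ) :
    Set (Pt K (Fin n × Fin (l + 1))) :=
  {z | (∀ i, ∀ j < l, PowerSeries.coeff j (MvPolynomial.aeval (ar z) (f i)) = 0) ∧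
    ∃ i, PowerSeries.coeff l (MvPolynomial.aeval (ar z) (f i)) ≠ 0}

/-- The motivic zeta function of the ideal generated by the `f_i`:
`𝕃 ^ (- n) ∑_{l ≥ 0} [{φ : min_i ord f_i(φ) = l}] (𝕃 ^ (- n) T) ^ l`. -/
noncomputable def zetaOrdI {K : Type} [Field K] [CharZero K] {n r : ℕ}
    (f : Fin r → MvPolynomial (Fin n) K) : PowerSeries (MK K) :=
  PowerSeries.C (((Lu K) ^ (-(n : ℤ)) : (MK K)ˣ) : MK K) * PowerSeries.mk fun l =>
    algebraMap (K0 K) (MK K) (cls (Fin n × Fin (l + 1)) (JetOrdI f l)) *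
      (((Lu K) ^ (-((n * l : ℕ) : ℤ)) : (MK K)ˣ) : MK K)

theorem vanI_succ {K : Type} [Field K] {n r : ℕ} (f : Fin r → MvPolynomial (Fin n) K) (l : ℕ) :
    vanI f l (l + 1) = vanI f (l + 1) (l + 1) ∪ JetOrdI f l := by
  ext z
  simp only [vanI, JetOrdI, Set.mem_union, Set.mem_ofPred_eq]
  constructor
  · intro h
    by_cases hl : ∀ i, PowerSeries.coeff l (MvPolynomial.aeval (ar z) (f i)) = 0
    · left
      intro i j hj
      rcases Nat.lt_succ_iff_lt_or_eq.1 hj with h1 | rfl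
      · exact h i j h1
      · exact hl i
    · push Not at hl
      exact Or.inr ⟨h, hl⟩
  · rintro (h | h)
    · exact fun i j hj => h i j (by omega)
    · exact h.1

theorem constr_jetOrdI {K : Type} [Field K] {n r : ℕ} (f : Fin r → MvPolynomial (Fin n) K)
    (l : ℕ) : Constr (JetOrdI f l) := by
  have h : JetOrdI f l = vanI f l (l + 1) ∩ (vanI f (l + 1) (l + 1))ᶜ := by
    rw [vanI_succ]
    ext z
    constructor
    · intro hz
      refine ⟨Or.inr hz, fun hz' => ?_⟩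
      obtain ⟨i, hi⟩ := hz.2
      exact hi (hz' i l (by omega))
    · rintro ⟨hz | hz, hz'⟩
      · exact absurd hz hz'
      · exact hz
  rw [h]
  exact (constr_vanI f l (l + 1)).inter (constr_vanI f (l + 1) (l + 1)).not

theorem chi_levelI {K : Type} [Field K] {R : Type} [CommRing R] (M : Meas K R) {n r : ℕ}
    (f : Fin r → MvPolynomial (Fin n) K) (N : ℕ) :
    M.χ (Fin n × Fin (N + 1)) (vanI f N (N + 1)) = clI M f N * M.L ^ n := by
  classical
  let F1 : Finset (Fin n × Fin (N + 1)) := Finset.univ.filter fun p => p.2 = Fin.last N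
  have hcard : F1.card = n := by
    have : F1 = (Finset.univ : Finset (Fin n)) ×ˢ ({Fin.last N} : Finset (Fin (N + 1))) := by
      ext p
      simp only [F1, Finset.mem_filter, Finset.mem_univ, true_and, Finset.mem_product,
        Finset.mem_singleton]
    rw [this, Finset.card_product, Finset.card_singleton, mul_one, Finset.card_univ,
      Fintype.card_fin]
  have h1 := free_coords M (vanI f N (N + 1)) F1 (constr_vanI _ _ _) (by
    intro z w hzw hz i j hj
    rw [coeff_aeval_congr (f i) N (ar w) (ar z) (fun i k hk => ?_) j hj]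
    · exact hz i j hj
    · refine ar_congr z w N (fun i j hj => hzw _ ?_) i k hk
      simp only [F1, Finset.mem_filter, Finset.mem_univ, true_and]
      intro he
      rw [he] at hj
      simp at hj)
  rw [h1, hcard]
  congr 1
  refine M.iso _ _ ((constr_vanI _ _ _).inter (Constr.ballFinset _ fun p _ =>
    Constr.eqz (IsPF.coord _))) (constr_vanI _ _ _) (fun z p => z (p.1, p.2.castSucc))
    (fun z p => if h : (p.2 : ℕ) < N then z (p.1, ⟨p.2, h⟩) else 0)
    (regularOn_poly (fun p => IsPF.coord _) _) (regularOn_poly (fun p => ?_) _) ?_ ?_ ?_ ?_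
  · by_cases h : (p.2 : ℕ) < N
    · simp only [dif_pos h]
      exact IsPF.coord _
    · simp only [dif_neg h]
      exact IsPF.zero
  · rintro z ⟨hz, -⟩ i j hj
    rw [coeff_aeval_congr (f i) N _ (ar z) (fun i k hk => ?_) j hj]
    · exact hz i j hj
    · rw [coeff_ar _ _ _ hk, coeff_ar _ _ _ (by omega)]
      rfl
  · intro z hz
    refine ⟨fun i j hj => ?_, fun p hp => ?_⟩
    · rw [coeff_aeval_congr (f i) N _ (ar z) (fun i k hk => ?_) j hj]
      · exact hz i j hj
      · rw [coeff_ar _ _ _ hk, coeff_ar _ _ _ (by omega)]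
        simp only
        rw [dif_pos hk]
    · simp only [F1, Finset.mem_filter, Finset.mem_univ, true_and] at hp
      simp only [hp]
      rw [dif_neg (by simp)]
  · rintro z ⟨-, hz⟩
    funext p
    simp only
    split_ifs with h
    · rfl
    · refine (hz p ?_).symm
      simp only [F1, Finset.mem_filter, Finset.mem_univ, true_and]
      apply Fin.ext
      have := p.2.2
      simp only [Fin.val_last]
      omega
  · intro z _
    funext p
    simp

theorem zetaOrdI_eq (M : Meas ℂ (MK ℂ)) (hL : M.L * Yc = 1)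
    (hM : ∀ (ι : Type) [Fintype ι] (S : Set (Pt ℂ ι)),
      M.χ ι S = algebraMap (K0 ℂ) (MK ℂ) (cls ι S)) {n r : ℕ}
    (f : Fin r → MvPolynomial (Fin n) ℂ) : zetaOrdI f = zI M Yc f := by
  have hpow : ∀ k : ℕ, (((Lu ℂ) ^ (-(k : ℤ)) : (MK ℂ)ˣ) : MK ℂ) = Yc ^ k := by
    intro k
    rw [zpow_neg, zpow_natCast, ← inv_pow, Units.val_pow_eq_pow_val]
    rfl
  ext l
  have h1 := M.add _ _ (constr_vanI f (l + 1) (l + 1)) (constr_jetOrdI f l) (by
    rw [Set.disjoint_left]
    intro z hz hz'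
    obtain ⟨i, hi⟩ := hz'.2
    exact hi (hz i l (by omega)))
  rw [← vanI_succ, chi_levelI, hM _ (JetOrdI f l)] at h1
  rw [zetaOrdI, zI, PowerSeries.coeff_C_mul, PowerSeries.coeff_mk, PowerSeries.coeff_mk, hpow,
    hpow, alI, alI, Fintype.card_fin]
  have h2 : algebraMap (K0 ℂ) (MK ℂ) (cls (Fin n × Fin (l + 1)) (JetOrdI f l)) =
      clI M f l * M.L ^ n - clI M f (l + 1) := by
    rw [h1, clI]
    ring
  rw [h2]
  have h3 : M.L ^ n * Yc ^ n = 1 := by rw [← mul_pow, hL, one_pow]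
  have h4 : n * (l + 1) = n + n * l := by ring
  rw [h4, pow_add]
  linear_combination (clI M f l * Yc ^ (n * l)) * h3

/-- The rational function attached to the ideal of quadrics. -/
noncomputable def topI (m : ℕ) (R : RatFunc ℂ) : RatFunc ℂ :=
  1 - (1 - (m : RatFunc ℂ) * (RatFunc.X + (m : RatFunc ℂ))⁻¹) * (1 - shift m R)

theorem isTop_ideal {χ : MK ℂ →+* ℤ} (hχ : χ ((Lu ℂ : (MK ℂ)ˣ) : MK ℂ) = 1)
    (M : Meas ℂ (MK ℂ)) {V V' : Type} [Fintype V] [Fintype V'] {r k m : ℕ}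
    {f : Fin r → MvPolynomial V ℂ} {q : Fin k → MvPolynomial V' ℂ}
    (h : ∀ N, alI M Yc q N = Yc ^ (m * N) * alI M Yc f N)
    {R : RatFunc ℂ} (hR : IsTop χ (zI M Yc f) R) : IsTop χ (zI M Yc q) (topI m R) := by
  have h1 : serI M Yc q = PowerSeries.rescale (Yc ^ m) (serI M Yc f) := by
    ext N
    rw [PowerSeries.coeff_rescale, serI, serI, PowerSeries.coeff_mk, PowerSeries.coeff_mk, h,
      pow_mul]
  have h4 := fac_mul_geo (K := ℂ) (-(m : ℤ), 1) one_pos
  have h5 : fac ℂ (-(m : ℤ), 1) = 1 - PowerSeries.C (Yc ^ m) * PowerSeries.X := by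
    rw [fac]
    simp only [zpow_neg, zpow_natCast, Int.toNat_one, pow_one]
    rw [← inv_pow, Units.val_pow_eq_pow_val]
    rfl
  have h6 := zI_eq M Yc q
  have h7 := zI_eq M Yc f
  have h8 := congrArg (PowerSeries.rescale (Yc ^ m)) h7
  rw [map_mul, map_sub, map_sub, map_one, PowerSeries.rescale_X] at h8
  have h9 : PowerSeries.X * zI M Yc q = 1 -
      (1 - PowerSeries.X * (PowerSeries.C (kap m) *
        (PowerSeries.C (((Lu ℂ : (MK ℂ)ˣ) : MK ℂ) - 1) * geo ℂ (-(m : ℤ)) 1))) *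
      (1 - PowerSeries.rescale (Yc ^ m) (PowerSeries.X * zI M Yc f)) := by
    have e1 : 1 - PowerSeries.X * (PowerSeries.C (kap m) *
        (PowerSeries.C (((Lu ℂ : (MK ℂ)ˣ) : MK ℂ) - 1) * geo ℂ (-(m : ℤ)) 1)) =
        (1 - PowerSeries.X) * geo ℂ (-(m : ℤ)) 1 := by
      have e2 := congrArg (PowerSeries.C (R := MK ℂ)) (kap_mul m)
      rw [map_mul, map_sub (PowerSeries.C (R := MK ℂ)) 1 (Yc ^ m), map_one] at e2
      rw [h5] at h4
      linear_combination (-PowerSeries.X * geo ℂ (-(m : ℤ)) 1) * e2 - h4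
    rw [e1, ← h8]
    rw [h5] at h4
    simp only at h4
    rw [h1] at h6
    linear_combination h6 + (1 - PowerSeries.X) *
      (PowerSeries.rescale (Yc ^ m)) (serI M Yc f) * h4
  apply IsTop.of_X_mul hχ
  rw [h9]
  have g1 := isTop_geo (χ := χ) (-(m : ℤ)) 1 one_pos
  have k1 := isTop_C (χ := χ) (kap m)
  have x1 := isTop_X (χ := χ)
  have o1 := isTop_one (χ := χ)
  have r1 := IsTop.rescale hχ (m := m) (x1.mul hR)
  have k3 := o1.sub ((o1.sub (x1.mul (k1.mul g1))).mul (o1.sub r1))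
  have e4 : topI m R = 1 - (1 - 1 * (((χ (kap m) : ℤ) : RatFunc ℂ) *
      (((1 : ℤ) : RatFunc ℂ) * RatFunc.X - ((-(m : ℤ) : ℤ) : RatFunc ℂ))⁻¹)) *
      (1 - shift m (1 * R)) := by
    rw [topI, chi_kap hχ]
    push_cast
    simp only [one_mul, sub_neg_eq_add]
  rw [e4]
  exact k3

theorem topI_eq (m : ℕ) (R : RatFunc ℂ) :
    algebraMap (Polynomial ℂ) (RatFunc ℂ) (Polynomial.X + Polynomial.C (m : ℂ)) *
      (1 - topI m R) =
    algebraMap (Polynomial ℂ) (RatFunc ℂ) Polynomial.X * (1 - shift m R) := by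
  have hCm : RatFunc.C (m : ℂ) = (m : RatFunc ℂ) := map_natCast _ _
  have a1 : algebraMap (Polynomial ℂ) (RatFunc ℂ) (Polynomial.X + Polynomial.C (m : ℂ)) =
      RatFunc.X + (m : RatFunc ℂ) := by
    rw [map_add, RatFunc.algebraMap_X, RatFunc.algebraMap_C, hCm]
  have n1 : RatFunc.X + (m : RatFunc ℂ) ≠ 0 := by
    rw [← a1]
    exact RatFunc.algebraMap_ne_zero (Polynomial.monic_X_add_C _).ne_zero
  rw [topI, a1, RatFunc.algebraMap_X]
  have e1 : (RatFunc.X + (m : RatFunc ℂ)) * (1 - (m : RatFunc ℂ) *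
      (RatFunc.X + (m : RatFunc ℂ))⁻¹) = RatFunc.X := by
    field_simp
    ring
  calc _ = ((RatFunc.X + (m : RatFunc ℂ)) * (1 - (m : RatFunc ℂ) *
        (RatFunc.X + (m : RatFunc ℂ))⁻¹)) * (1 - shift m R) := by ring
    _ = _ := by rw [e1]

theorem regAt_of_topI {m : ℕ} {R : RatFunc ℂ} {s₀ : ℂ} (hs : s₀ ≠ m)
    (h : RegAt (topI m R) (s₀ - m)) : RegAt R s₀ := by
  have h0 := regAt_poly 1 (s₀ - m)
  rw [map_one] at h0
  have h3 := (regAt_poly (Polynomial.X + Polynomial.C (m : ℂ)) (s₀ - m)).mul (h0.sub h)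
  rw [topI_eq] at h3
  have h4 := RegAt.of_mul_poly (A := Polynomial.X) (by
    rw [Polynomial.eval_X]
    exact sub_ne_zero.2 hs) h3
  have h5 := h0.sub h4
  rw [sub_sub_cancel] at h5
  have h6 := h5.of_shift
  rwa [sub_add_cancel] at h6

end Pool.Agent.W206.ID
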