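import Pool.Agent.W206.ID.RedL
import Pool.Agent.W206.MO.Trans

set_option autoImplicit false

/-! The volumes of the sets of arcs of an ideal, along the moves. -/

namespace Pool.Agent.W206.ID

open MvPolynomial
open Pool.Agent.W428.MOT Pool.Agent.W375.MT Pool.Agent.W206.MO
open Pool.Agent.W206.CU

variable {K : Type} [Field K]

/-- The jets on which all the `f_i` vanish to order `k`. -/
def vanT {V τ : Type} (f : τ → MvPolynomial V K) (k N : ℕ) : Set (Pt K (V × Fin N)) :=
  {z | ∀ i, ∀ j < k, PowerSeries.coeff j (aeval (ar z) (f i)) = 0}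

theorem constr_vanT {V τ : Type} [Finite τ] (f : τ → MvPolynomial V K) (k N : ℕ) :
    Constr (vanT f k N) :=
  Constr.all fun i => Constr.allLt _ fun j _ =>
    Constr.eqz (isPA_aeval (fun i z => ar z i) (fun i => isPA_ar i) (f i) j)

variable {R : Type} [CommRing R] (M : Meas K R)

/-- The class of the jets on which all the `f_i` vanish. -/
noncomputable def clT {V τ : Type} [Fintype V] (f : τ → MvPolynomial V K) (N : ℕ) : R :=
  M.χ (V × Fin N) (vanT f N N)

theorem clT_iso {V V' τ : Type} [Fintype V] [Fintype V'] [Finite τ]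
    (e : MvPolynomial V K ≃ₐ[K] MvPolynomial V' K) (f : τ → MvPolynomial V K) (N : ℕ) :
    clT M (fun j => e (f j)) N = clT M f N := by
  symm
  refine M.iso _ _ (constr_vanT _ _ _) (constr_vanT _ _ _) (act fun i => e.symm (X i))
    (act fun i => e (X i)) (regularOn_poly (fun p => isPF_act _ p) _)
    (regularOn_poly (fun p => isPF_act _ p) _) ?_ ?_ ?_ ?_
  · intro z hz i j hj
    rw [coeff_ar_act _ _ _ _ hj, aeval_symm, AlgEquiv.symm_apply_apply]
    exact hz i j hj
  · intro z hz i j hj
    rw [coeff_ar_act _ _ _ _ hj, aeval_equiv]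
    exact hz i j hj
  · intro z _
    exact act_act _ _ (fun i => by rw [aeval_symm, AlgEquiv.symm_apply_apply]) z
  · intro z _
    exact act_act _ _ (fun i => by rw [aeval_equiv, AlgEquiv.apply_symm_apply]) z

/-- The class depends on the ideal only (one inclusion of the sets of jets). -/
theorem vanT_subset {V τ τ' : Type} [Fintype τ] (f : τ → MvPolynomial V K)
    (g : τ' → MvPolynomial V K) (h : ∀ i, ∃ c : τ → MvPolynomial V K, g i = ∑ j, c j * f j)
    (k N : ℕ) : vanT f k N ⊆ vanT g k N := by
  intro z hz i l hl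
  obtain ⟨c, hc⟩ := h i
  rw [hc, map_sum, map_sum]
  refine Finset.sum_eq_zero fun j _ => ?_
  rw [map_mul, PowerSeries.coeff_mul]
  refine Finset.sum_eq_zero fun ab hab => ?_
  have := Finset.HasAntidiagonal.mem_antidiagonal.1 hab
  rw [hz j ab.2 (by omega), mul_zero]

theorem ar_inl {V W : Type} {N : ℕ} (z : Pt K ((V ⊕ W) × Fin N)) :
    (fun v => ar z (Sum.inl v)) = ar fun p : V × Fin N => z (Sum.inl p.1, p.2) := by
  funext v
  ext j
  by_cases h : j < N
  · rw [coeff_ar _ _ _ h, coeff_ar _ _ _ h]
  · rw [coeff_ar' _ _ _ h, coeff_ar' _ _ _ h]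

theorem aeval_ar_rename {V W : Type} {N : ℕ} (z : Pt K ((V ⊕ W) × Fin N))
    (g : MvPolynomial V K) :
    aeval (ar z) (rename Sum.inl g) = aeval (ar fun p : V × Fin N => z (Sum.inl p.1, p.2)) g := by
  rw [aeval_rename, ← ar_inl]
  rfl

/-- Adding the generator `y` and the free variable `t`. -/
theorem clT_add {V τ : Type} [Fintype V] [Finite τ] (g : τ → MvPolynomial V K) (N : ℕ) :
    clT M (fun o : Option τ => o.elim (X (Sum.inr 0) : MvPolynomial (V ⊕ Fin 2) K)
      fun j => rename Sum.inl (g j)) N = clT M g N * M.L ^ N := by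
  classical
  set G : Option τ → MvPolynomial (V ⊕ Fin 2) K :=
    fun o => o.elim (X (Sum.inr 0)) fun j => rename Sum.inl (g j) with hG
  let F1 : Finset ((V ⊕ Fin 2) × Fin N) := Finset.univ.filter fun p => p.1 = Sum.inr 1
  have hcard : F1.card = N := by
    have : F1 = ({Sum.inr 1} : Finset (V ⊕ Fin 2)) ×ˢ (Finset.univ : Finset (Fin N)) := by
      ext p
      simp only [F1, Finset.mem_filter, Finset.mem_univ, and_true, true_and, Finset.mem_product,
        Finset.mem_singleton]
    rw [this, Finset.card_product, Finset.card_univ, Fintype.card_fin, Finset.card_singleton,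
      one_mul]
  have hmem : ∀ z : Pt K ((V ⊕ Fin 2) × Fin N), z ∈ vanT G N N ↔
      (∀ j : Fin N, z (Sum.inr 0, j) = 0) ∧
        (fun p : V × Fin N => z (Sum.inl p.1, p.2)) ∈ vanT g N N := by
    intro z
    constructor
    · intro h
      refine ⟨fun j => ?_, fun i l hl => ?_⟩
      · have h1 := h none j j.2
        simp only [hG, Option.elim_none, aeval_X] at h1
        rwa [coeff_ar _ _ _ j.2] at h1
      · have h1 := h (some i) l hl
        simp only [hG, Option.elim_some] at h1
        rwa [aeval_ar_rename] at h1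
    · rintro ⟨h1, h2⟩ o l hl
      rcases o with _ | i
      · simp only [hG, Option.elim_none, aeval_X]
        rw [coeff_ar _ _ _ hl]
        exact h1 _
      · simp only [hG, Option.elim_some]
        rw [aeval_ar_rename]
        exact h2 i l hl
  have h1 := free_coords M (vanT G N N) F1 (constr_vanT _ _ _) (by
    intro z w hzw hz
    rw [hmem] at hz ⊢
    refine ⟨fun j => ?_, ?_⟩
    · rw [hzw _ (by simp [F1])]
      exact hz.1 j
    · have : (fun p : V × Fin N => w (Sum.inl p.1, p.2)) =
          fun p : V × Fin N => z (Sum.inl p.1, p.2) := by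
        funext p
        exact hzw _ (by simp [F1])
      rw [this]
      exact hz.2)
  rw [clT, h1, hcard]
  congr 1
  refine M.iso _ _ ((constr_vanT _ _ _).inter (Constr.ballFinset _ fun p _ =>
    Constr.eqz (IsPF.coord _)))
    (constr_vanT _ _ _) (fun z p => z (Sum.inl p.1, p.2))
    (fun z p => Sum.elim (fun i => z (i, p.2)) (fun _ => 0) p.1)
    (regularOn_poly (fun p => IsPF.coord _) _) (regularOn_poly ?_ _) ?_ ?_ ?_ ?_
  · rintro ⟨i | i, j⟩
    · exact IsPF.coord _
    · exact IsPF.zero
  · rintro z ⟨hz, -⟩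
    exact ((hmem z).1 hz).2
  · intro z hz
    refine ⟨(hmem _).2 ⟨fun j => rfl, hz⟩, fun p hp => ?_⟩
    simp only [F1, Finset.mem_filter, Finset.mem_univ, true_and] at hp
    obtain ⟨v | v, j⟩ := p
    · simp at hp
    · rfl
  · rintro z ⟨hz, hz'⟩
    funext p
    obtain ⟨i | i, j⟩ := p
    · rfl
    · fin_cases i
      · exact (((hmem z).1 hz).1 j).symm
      · exact (hz' _ (by simp [F1])).symm
  · intro z _
    rfl

variable (Y : R)

/-- The volume of the set of the arcs on which all the `f_i` have order at least `N`. -/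
noncomputable def alT {V τ : Type} [Fintype V] (f : τ → MvPolynomial V K) (N : ℕ) : R :=
  clT M f N * Y ^ (Fintype.card V * N)

theorem alT_iso {V V' τ : Type} [Fintype V] [Fintype V'] [Finite τ]
    (e : MvPolynomial V K ≃ₐ[K] MvPolynomial V' K) (f : τ → MvPolynomial V K) (N : ℕ) :
    alT M Y (fun j => e (f j)) N = alT M Y f N := by
  rw [alT, alT, clT_iso, card_eq_of_iso e]

theorem alT_congr {V τ τ' : Type} [Fintype V] [Fintype τ] [Fintype τ'] (f : τ → MvPolynomial V K)
    (g : τ' → MvPolynomial V K) (h : ∀ i, ∃ c : τ → MvPolynomial V K, g i = ∑ j, c j * f j)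
    (h' : ∀ i, ∃ c : τ' → MvPolynomial V K, f i = ∑ j, c j * g j)
    (N : ℕ) : alT M Y f N = alT M Y g N := by
  rw [alT, alT, clT, clT, Set.Subset.antisymm (vanT_subset f g h N N) (vanT_subset g f h' N N)]

theorem alT_add (hY : M.L * Y = 1) {V τ : Type} [Fintype V] [Finite τ]
    (g : τ → MvPolynomial V K) (N : ℕ) :
    alT M Y (fun o : Option τ => o.elim (X (Sum.inr 0) : MvPolynomial (V ⊕ Fin 2) K)
      fun j => rename Sum.inl (g j)) N = Y ^ N * alT M Y g N := by
  rw [alT, alT, clT_add]
  have hc : Fintype.card (V ⊕ Fin 2) = Fintype.card V + 2 := by simp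
  rw [hc, show (Fintype.card V + 2) * N = N + N + Fintype.card V * N by ring, pow_add, pow_add]
  have h1 : M.L ^ N * Y ^ N = 1 := by rw [← mul_pow, hY, one_pow]
  linear_combination (clT M g N * Y ^ N * Y ^ (Fintype.card V * N)) * h1

/-- The ideal after a move, in the variables `V ⊕ Fin 2`. -/
theorem alT_move (hY : M.L * Y = 1) {V τ : Type} [Fintype V] [Fintype τ] [DecidableEq τ]
    (g h : τ → MvPolynomial V K) (a : MvPolynomial V K) (N : ℕ) :
    alT M Y (fun o : Option τ => o.elim
      (X (Sum.inr 0) - rename Sum.inl a : MvPolynomial (V ⊕ Fin 2) K)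
      fun j => rename Sum.inl (g j) + (X (Sum.inr 0) - rename Sum.inl a) *
        rename Sum.inl (h j)) N = Y ^ N * alT M Y g N := by
  rw [← alT_add M Y hY g N]
  let e := Pool.Agent.W206.CU.KR.shear a (0 : MvPolynomial V K)
  have h1 : (fun o : Option τ => o.elim
      (X (Sum.inr 0) - rename Sum.inl a : MvPolynomial (V ⊕ Fin 2) K)
      fun j => rename Sum.inl (g j) + (X (Sum.inr 0) - rename Sum.inl a) *
        rename Sum.inl (h j)) = fun o => e (o.elim (X (Sum.inr 0))
          fun j => rename Sum.inl (g j) + X (Sum.inr 0) * rename Sum.inl (h j)) := by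
    funext o
    rcases o with _ | j
    · simp only [Option.elim_none]
      exact (Pool.Agent.W206.CU.KR.shear_y a 0).symm
    · simp only [Option.elim_some]
      rw [map_add, map_mul]
      simp only [e, Pool.Agent.W206.CU.KR.shear_y, Pool.Agent.W206.CU.KR.shear_rename]
  rw [h1, alT_iso]
  apply alT_congr
  · intro o
    rcases o with _ | j
    · refine ⟨fun o => o.elim 1 fun _ => 0, ?_⟩
      rw [Fintype.sum_option]
      simp
    · refine ⟨fun o => o.elim (-rename Sum.inl (h j)) fun i => if i = j then 1 else 0, ?_⟩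
      rw [Fintype.sum_option]
      simp
      ring
  · intro o
    rcases o with _ | j
    · refine ⟨fun o => o.elim 1 fun _ => 0, ?_⟩
      rw [Fintype.sum_option]
      simp
    · refine ⟨fun o => o.elim (rename Sum.inl (h j)) fun i => if i = j then 1 else 0, ?_⟩
      rw [Fintype.sum_option]
      simp
      ring

end Pool.Agent.W206.ID
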